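import Pool.Agent.H283.TC.Space

/-!
# MP_53fdf1_co: at most 32 unit cubes touch a unit cube in positive area

Let `G` be a unit cube of `ℝ³` and `C_1, ..., C_k` unit cubes (in any position, rotated cubes are
allowed) such that the interiors of `G, C_1, ..., C_k` are pairwise disjoint and `∂G ∩ ∂C_i` has
positive area for every `i`. We prove `k ≤ 32`. The bound recorded before is `k ≤ 72`.

Proof. Let `G = [0, 1]³`. A plane separates `G` and `C_i`. The set `G ∩ C_i` lies in this plane and
has positive area, so the plane contains a face of `G` and a face of `C_i`. Hence one of the axes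
of `C_i`, say the one with number `k`, is parallel to an axis of `G`, say with number `j`. Take a
point `p` of `G ∩ C_i`. The points of `C_i` at distance at most `1` from `p` in the two other
directions are in the cube `B = [-1, 2]³`, and their volume is at least that of a quarter of a
disc of radius `1`, i.e. `π / 4`. Moreover they are not in the corners of `B`, the set of points
of `B` all of whose coordinates are greater than `1.71` or less than `-0.71`, because
`2 * 0.71² > 1`. So `k π / 4 + 1 ≤ 27 - 0.58³` and `k < 33`.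
-/

namespace Pool.Agent.Results.MP_53fdf1_co.AtMostThirtyTwo

open MeasureTheory Set Real Topology
open Pool.Agent.H283.TC

/-- `C` is a unit cube: the image of `[0, 1]³` under an isometry of `ℝ³`. -/
def IsUnitCube (C : Set (EuclideanSpace ℝ (Fin 3))) : Prop :=
  ∃ e : EuclideanSpace ℝ (Fin 3) ≃ᵢ EuclideanSpace ℝ (Fin 3), C = e '' {y | ∀ j, 0 ≤ y j ∧ y j ≤ 1}

/-- the corners of the cube `[-1, 2]³` -/
def J : Set ℝ := Ico (-1) (-(71 / 100)) ∪ Ioc (171 / 100) 2

/-- the cube `[-1, 2]³` without its corners -/
def reg : Set E := box \ (WithLp.ofLp ⁻¹' (Set.pi univ fun _ : Fin 3 => J))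

theorem volume_J : volume J = ENNReal.ofReal (58 / 100) := by
  unfold J
  rw [measure_union _ measurableSet_Ioc, Real.volume_Ico, Real.volume_Ioc,
    ← ENNReal.ofReal_add (by norm_num) (by norm_num)]
  · norm_num
  · rw [Set.disjoint_left]
    intro x h1 h2
    linarith [h1.2, h2.1]

theorem measurable_J : MeasurableSet J := measurableSet_Ico.union measurableSet_Ioc

theorem measurable_K : MeasurableSet (WithLp.ofLp ⁻¹' (Set.pi univ fun _ : Fin 3 => J) : Set E) :=
  (PiLp.volume_preserving_ofLp (Fin 3)).measurable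
    (MeasurableSet.univ_pi fun _ => measurable_J)

theorem measurable_reg : MeasurableSet reg := isClosed_box.measurableSet.diff measurable_K

theorem vol_ge (e : E ≃ᵢ E) (R : E ≃ₗᵢ[ℝ] E) (hR : ∀ y, e y = R y + e 0) {j k : Fin 3}
    (hal : ∀ v, (R v j) ^ 2 = (v k) ^ 2) (hne : (cube ∩ e '' cube).Nonempty) :
    ENNReal.ofReal (π / 4) ≤ volume (e '' cube ∩ reg) := by
  obtain ⟨p, hp, yp, hyp, rfl⟩ := hne
  have hmp : MeasurePreserving e volume volume := by
    have h1 := (measurePreserving_add_right volume (e 0)).comp R.measurePreserving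
    have h2 : (e : E → E) = (fun z => z + e 0) ∘ R := funext hR
    rw [h2]
    exact h1
  have hcl : IsClosed (e '' cube) := e.toHomeomorph.isClosedMap _ isClosed_cube
  rw [← hmp.measure_preimage (hcl.measurableSet.inter measurable_reg).nullMeasurableSet]
  refine (vol_part k hyp).trans (measure_mono ?_)
  rintro y ⟨hy, hsum⟩
  have hw : ∀ i, e y i = e yp i + R (y - yp) i := by
    intro i
    rw [hR y, hR yp, map_sub]
    simp only [PiLp.add_apply, PiLp.sub_apply]
    ring
  have hk : (y k - yp k) ^ 2 ≤ 1 := by
    have h1 := hy k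
    have h2 := hyp k
    rw [sq_le_one_iff_abs_le_one, abs_le]
    constructor <;> linarith [h1.1, h1.2, h2.1, h2.2]
  have n1 : ‖R (y - yp)‖ ^ 2 = ‖y - yp‖ ^ 2 := by rw [LinearIsometryEquiv.norm_map]
  rw [EuclideanSpace.norm_sq_eq, EuclideanSpace.norm_sq_eq] at n1
  simp only [Real.norm_eq_abs, sq_abs] at n1
  have n3 := hal (y - yp)
  have n4 : ∑ l, ((y - yp) l) ^ 2 = ((y - yp) k) ^ 2 +
      ∑ l : Fin 2, ((y - yp) (k.succAbove l)) ^ 2 := Fin.sum_univ_succAbove _ k
  have n5 : ∑ l, (R (y - yp) l) ^ 2 = (R (y - yp) j) ^ 2 +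
      ∑ l : Fin 2, (R (y - yp) (j.succAbove l)) ^ 2 := Fin.sum_univ_succAbove _ j
  simp only [PiLp.sub_apply] at n1 n3 n4
  refine ⟨⟨y, hy, rfl⟩, fun i => ?_, ?_⟩
  · have hsq : (R (y - yp) i) ^ 2 ≤ 1 := by
      by_cases hij : i = j
      · subst hij
        rw [hal]
        simpa using hk
      · have n2 : (R (y - yp) i) ^ 2 + (R (y - yp) j) ^ 2 ≤ ∑ l, (R (y - yp) l) ^ 2 := by
          rw [← Finset.sum_pair (f := fun l => (R (y - yp) l) ^ 2) hij]
          exact Finset.sum_le_sum_of_subset_of_nonneg (Finset.subset_univ _)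
            fun _ _ _ => sq_nonneg _
        linarith
    rw [sq_le_one_iff_abs_le_one, abs_le] at hsq
    have h1 := hp i
    rw [hw]
    constructor <;> linarith [hsq.1, hsq.2, h1.1, h1.2]
  · intro hmem
    have hbig : ∀ l, (5041 / 10000 : ℝ) < (R (y - yp) l) ^ 2 := by
      intro l
      have h1 := hp l
      have h2 : e y l ∈ J := hmem l (mem_univ l)
      rw [hw l] at h2
      rcases h2 with h2 | h2
      · have : R (y - yp) l < -(71 / 100) := by linarith [h2.2, h1.1]
        nlinarith
      · have : 71 / 100 < R (y - yp) l := by linarith [h2.1, h1.2]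
        nlinarith
    rw [Fin.sum_univ_two (fun l => (R (y - yp) (j.succAbove l)) ^ 2)] at n5
    linarith [hbig (j.succAbove 0), hbig (j.succAbove 1)]

theorem volume_box : volume box = 27 := by
  have h : box = WithLp.ofLp ⁻¹' (Icc (fun _ => -1) (fun _ => 2) : Set (Fin 3 → ℝ)) := by
    ext y
    simp only [box, mem_ofPred_eq, mem_preimage, mem_Icc, Pi.le_def, forall_and]
  rw [h, (PiLp.volume_preserving_ofLp (Fin 3)).measure_preimage
    measurableSet_Icc.nullMeasurableSet, Real.volume_Icc_pi]
  simp only [Finset.prod_const, Finset.card_univ, Fintype.card_fin]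
  rw [show (2:ℝ) - -1 = 3 by norm_num, ← ENNReal.ofReal_pow (by norm_num)]
  norm_num

theorem volume_reg : volume reg = ENNReal.ofReal (27 - (58 / 100) ^ 3) := by
  have hK : volume (WithLp.ofLp ⁻¹' (Set.pi univ fun _ : Fin 3 => J) : Set E) =
      ENNReal.ofReal ((58 / 100) ^ 3) := by
    rw [(PiLp.volume_preserving_ofLp (Fin 3)).measure_preimage
      (MeasurableSet.univ_pi fun _ => measurable_J).nullMeasurableSet, volume_pi_pi]
    simp only [volume_J, Finset.prod_const, Finset.card_univ, Fintype.card_fin]
    rw [ENNReal.ofReal_pow (by norm_num)]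
  have hsub : (WithLp.ofLp ⁻¹' (Set.pi univ fun _ : Fin 3 => J) : Set E) ⊆ box := by
    intro y hy j
    have h2 : y j ∈ J := hy j (mem_univ j)
    rcases h2 with h2 | h2
    · constructor <;> linarith [h2.1, h2.2]
    · constructor <;> linarith [h2.1, h2.2]
  unfold reg
  rw [measure_sdiff hsub measurable_K.nullMeasurableSet (by rw [hK]; exact ENNReal.ofReal_ne_top),
    volume_box, hK, show (27 : ENNReal) = ENNReal.ofReal 27 by norm_num,
    ← ENNReal.ofReal_sub _ (by norm_num)]

theorem cube_sub : interior cube ⊆ reg := by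
  intro y hy
  have hy' : y ∈ cube := interior_subset hy
  refine ⟨fun j => ?_, fun hmem => ?_⟩
  · have := hy' j
    constructor <;> linarith [this.1, this.2]
  · have h1 := hy' 0
    have h2 : y 0 ∈ J := hmem 0 (mem_univ _)
    rcases h2 with h2 | h2
    · linarith [h2.2, h1.1]
    · linarith [h2.1, h1.2]

theorem volume_cube : volume cube = 1 := by
  have h : cube = WithLp.ofLp ⁻¹' (Icc (fun _ => 0) (fun _ => 1) : Set (Fin 3 → ℝ)) := by
    ext y
    simp only [cube, mem_ofPred_eq, mem_preimage, mem_Icc, Pi.le_def, forall_and]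
  rw [h, (PiLp.volume_preserving_ofLp (Fin 3)).measure_preimage
    measurableSet_Icc.nullMeasurableSet, Real.volume_Icc_pi]
  simp

theorem convex_image (e : E ≃ᵢ E) : Convex ℝ (e '' cube) := by
  have h : e '' cube = e.toRealAffineIsometryEquiv.toAffineEquiv.toAffineMap '' cube := rfl
  rw [h]
  exact convex_cube.affine_image _

/-- the interior of a closed convex set has the same volume in any set -/
theorem vol_interior {S T : Set E} (hS : Convex ℝ S) (_hc : IsClosed S) :
    volume (S ∩ T) ≤ volume (interior S ∩ T) := by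
  have h : S ∩ T ⊆ (interior S ∩ T) ∪ frontier S := by
    rintro x ⟨hx, hT⟩
    by_cases hi : x ∈ interior S
    · exact Or.inl ⟨hi, hT⟩
    · exact Or.inr ⟨subset_closure hx, hi⟩
  refine (measure_mono h).trans ((measure_union_le _ _).trans ?_)
  rw [Convex.addHaar_frontier volume hS, add_zero]

theorem main (k : ℕ) (C : Fin k → Set E) (e : Fin k → E ≃ᵢ E) (hC : ∀ i, C i = e i '' cube)
    (h1 : ∀ i, Disjoint (interior cube) (interior (C i)))
    (h2 : ∀ i j, i ≠ j → Disjoint (interior (C i)) (interior (C j)))
    (h3 : ∀ i, 0 < Measure.hausdorffMeasure 2 (frontier cube ∩ frontier (C i))) : k ≤ 32 := by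
  have hcl : ∀ i, IsClosed (C i) := fun i => by
    rw [hC i]; exact (e i).toHomeomorph.isClosedMap _ isClosed_cube
  have hv : ∀ i, ENNReal.ofReal (π / 4) ≤ volume (interior (C i) ∩ reg) := by
    intro i
    have hpos : 0 < Measure.hausdorffMeasure 2 (cube ∩ e i '' cube) := by
      refine lt_of_lt_of_le (h3 i) (measure_mono ?_)
      rw [← hC i]
      exact inter_subset_inter isClosed_cube.frontier_subset (hcl i).frontier_subset
    obtain ⟨R, hR⟩ := lin_part (e i)
    obtain ⟨j, l, hal⟩ := align (e i) R hR (by rw [← hC i]; exact h1 i) hpos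
    have hne : (cube ∩ e i '' cube).Nonempty := by
      by_contra hcon
      rw [not_nonempty_iff_eq_empty] at hcon
      rw [hcon, measure_empty] at hpos
      exact lt_irrefl _ hpos
    have := vol_ge (e i) R hR hal hne
    rw [← hC i] at this
    exact this.trans (vol_interior (by rw [hC i]; exact convex_image _) (hcl i))
  have hsub : interior cube ∪ (⋃ i, (interior (C i) ∩ reg)) ⊆ reg :=
    union_subset cube_sub (iUnion_subset fun i => inter_subset_right)
  have hmeas : ∀ i, MeasurableSet (interior (C i) ∩ reg) := fun i =>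
    isOpen_interior.measurableSet.inter measurable_reg
  have hle := measure_mono (μ := volume) hsub
  rw [measure_union (disjoint_iUnion_right.mpr fun i => (h1 i).mono_right inter_subset_left)
    (MeasurableSet.iUnion hmeas), measure_iUnion (fun i j hij =>
      (h2 i j hij).mono inter_subset_left inter_subset_left) hmeas, tsum_fintype, volume_reg] at hle
  have hcube : (1 : ENNReal) ≤ volume (interior cube) := by
    rw [← volume_cube]
    have := vol_interior (T := univ) convex_cube isClosed_cube
    simpa using this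
  have hk : (1 : ENNReal) + k * ENNReal.ofReal (π / 4) ≤ ENNReal.ofReal (27 - (58 / 100) ^ 3) := by
    refine le_trans ?_ hle
    refine add_le_add hcube ?_
    calc (k : ENNReal) * ENNReal.ofReal (π / 4) = ∑ _i : Fin k, ENNReal.ofReal (π / 4) := by
          simp
      _ ≤ _ := Finset.sum_le_sum fun i _ => hv i
  have hreal : 1 + (k : ℝ) * (π / 4) ≤ 27 - (58 / 100) ^ 3 := by
    have hpi : 0 ≤ π / 4 := by positivity
    have e1 : (1 : ENNReal) + k * ENNReal.ofReal (π / 4) = ENNReal.ofReal (1 + k * (π / 4)) := by
      rw [ENNReal.ofReal_add zero_le_one (by positivity), ENNReal.ofReal_one,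
        ENNReal.ofReal_mul (by positivity), ENNReal.ofReal_natCast]
    rw [e1] at hk
    exact (ENNReal.ofReal_le_ofReal_iff (by norm_num)).mp hk
  by_contra hcon
  have h33 : (33 : ℝ) ≤ k := by
    have : 33 ≤ k := by omega
    exact_mod_cast this
  have := Real.pi_gt_d2
  nlinarith

/-- **Theorem.** Let `G` and `C_i`, `i < k`, be unit cubes of `ℝ³` with pairwise disjoint interiors
such that `∂G ∩ ∂C_i` has positive two-dimensional Hausdorff measure for each `i`. Then
`k ≤ 32`. -/
theorem result (k : ℕ) (G : Set (EuclideanSpace ℝ (Fin 3)))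
    (C : Fin k → Set (EuclideanSpace ℝ (Fin 3))) (hG : IsUnitCube G) (hC : ∀ i, IsUnitCube (C i))
    (h1 : ∀ i, Disjoint (interior G) (interior (C i)))
    (h2 : ∀ i j, i ≠ j → Disjoint (interior (C i)) (interior (C j)))
    (h3 : ∀ i, 0 < Measure.hausdorffMeasure 2 (frontier G ∩ frontier (C i))) : k ≤ 32 := by
  obtain ⟨g, hg⟩ := hG
  choose e he using hC
  have hint : ∀ S : Set E, interior (g.symm '' S) = g.symm '' interior S := fun S =>
    (g.symm.toHomeomorph.image_interior S).symm
  have hfr : ∀ S : Set E, frontier (g.symm '' S) = g.symm '' frontier S := fun S =>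
    (g.symm.toHomeomorph.image_frontier S).symm
  have hG' : g.symm '' G = cube := by
    rw [hg, image_image]
    simp
    rfl
  refine main k (fun i => g.symm '' C i) (fun i => (e i).trans g.symm) (fun i => ?_) (fun i => ?_)
    (fun i j hij => ?_) (fun i => ?_)
  · rw [he i, image_image]
    rfl
  · rw [← hG', hint, hint]
    exact (disjoint_image_iff g.symm.injective).mpr (h1 i)
  · rw [hint, hint]
    exact (disjoint_image_iff g.symm.injective).mpr (h2 i j hij)
  · rw [← hG', hfr, hfr, ← image_inter g.symm.injective, g.symm.hausdorffMeasure_image]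
    exact h3 i

end Pool.Agent.Results.MP_53fdf1_co.AtMostThirtyTwo
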